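import Mathlib
import Pool.Agent.Lib_helper12.HK.DefsE

/-!
# Project HK (MP_5fc650_pr), Part C: removal of sites. Definitions.

`Lip n X`: the functions on the torus that are Lipschitz along the edges outside `X`;
`vol n p X E`: the volume of the functions on the complement of `X` that vanish at `p`, are
Lipschitz there and have the property `E`.
-/

set_option autoImplicit false

namespace HKC

open MeasureTheory QG HK

/-- the Lipschitz functions on the graph without the sites of `X` -/
def Lip (n : ℕ) (X : Finset (Tor n)) : Set (Tor n → ℝ) :=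
  {φ | ∀ y, y ∉ X → ∀ i : Fin 4, y + dir n i ∉ X → |φ (y + dir n i) - φ y| ≤ 1}

/-- the volume of the Lipschitz functions on the graph without `X`, pinned at `p`, with the
property `E` -/
noncomputable def vol (n : ℕ) [NeZero n] (p : Tor n) (X : Finset (Tor n))
    (E : Set (Tor n → ℝ)) : ENNReal :=
  lmg ((Lip n X ∩ E).indicator 1) ((Finset.univ.erase p) \ X) 0

/-- a vector with integer coordinates -/
def of (n : ℕ) (a b : ℤ) : Tor n := ((a : ZMod (2 * n)), (b : ZMod (2 * n)))

/-- the site `x` can be removed after `X`: a site of `X` in the block around `x` is the neighbour of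
`x` in one fixed direction -/
def Rm (n : ℕ) (X : Finset (Tor n)) (x : Tor n) : Prop :=
  x ∉ X ∧ ∃ i : Fin 4, ∀ a b : ℤ, |a| ≤ 1 → |b| ≤ 1 → x + of n a b ∈ X → of n a b = dir n i

/-- the sites of the list can be removed one after the other (the last one first) -/
def RmL (n : ℕ) : List (Tor n) → Prop
  | [] => True
  | x :: l => Rm n l.toFinset x ∧ RmL n l

/-- the sites on the `K`-edge from `k` in direction `i` -/
def sg (n m : ℕ) (k : ℤ × ℤ) (i : Fin 4) (j : ℕ) : Tor n :=
  of n (2 * m * k.1 + j * (dz i).1) (2 * m * k.2 + j * (dz i).2)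

/-- its interior sites -/
def Xe (n m : ℕ) (e : (ℤ × ℤ) × Fin 4) : Finset (Tor n) :=
  (Finset.Ioo 0 (2 * m)).image (sg n m e.1 e.2)

/-- a family of `K`-edges in the box, far from each other; `e c` is the edge with the label `c` -/
def FarE (n m : ℕ) (T : Finset (ℤ × ℤ)) (e : ℤ × ℤ → (ℤ × ℤ) × Fin 4) : Prop :=
  ∀ c ∈ T, (e c).1 ∈ Lam n m ∧ (e c).1 + dz (e c).2 ∈ Lam n m ∧
    ∀ c' ∈ T, c ≠ c' → 3 ≤ di (e c).1 (e c').1

/-- the interior sites of a family of edges -/
def XT (n m : ℕ) (T : Finset (ℤ × ℤ)) (e : ℤ × ℤ → (ℤ × ℤ) × Fin 4) : Finset (Tor n) :=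
  T.biUnion fun c => Xe n m (e c)

/-- the values along the edge form a Lipschitz sequence with a steep increment -/
def Hs (n m : ℕ) (e : (ℤ × ℤ) × Fin 4) : Set (Tor n → ℝ) :=
  {φ | (∀ j < 2 * m, |φ (sg n m e.1 e.2 (j + 1)) - φ (sg n m e.1 e.2 j)| ≤ 1) ∧
    (1 - ep) * (2 * m) < |φ (sg n m e.1 e.2 (2 * m)) - φ (sg n m e.1 e.2 0)|}

/-- the bound for one edge -/
noncomputable def be (m : ℕ) : ℝ := (ep * (2 * m)) ^ (2 * m - 1) / (2 * m - 1).factorial

end HKC
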