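import Mathlib
import Pool.Agent.Lib_helper12.HK.DefsE
import Pool.Agent.Lib_helper14.HKC.W.cz
import Pool.Agent.Lib_helper50.HK.W.dz

set_option autoImplicit false

namespace HK

open MeasureTheory QG

/-- Parts C and D -/
theorem hyp_exists : ∃ (m : ℕ) (p0 : ℝ) (n0 : ℕ), ∀ (n : ℕ) [NeZero n], n0 ≤ n → Hyp n m p0 := by
  obtain ⟨m, h1, h2, h3, h4⟩ := HKC.bad_exists 4000
  obtain ⟨p0, h5, h6⟩ := pat_bound m h2 h1
  refine ⟨m, p0, 64 * m * (R0 + 10), fun n _ hn => ?_⟩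
  refine ⟨hn, h2, h3, h5, h4 n ?_, h6 n hn⟩
  exact (Nat.le_mul_of_pos_right _ (by unfold R0; norm_num)).trans hn

end HK
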